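import Mathlib
import Pool.Agent.MP_16e32a_lc.h38.Main

/-! Without a promise on the parameters, the query complexity of estimating the degree
distribution is determined graph by graph, and one algorithm attains it on every graph. -/

set_option autoImplicit false

namespace Pool.Agent.Results.MP_16e32a_lc.InstanceOptimal

open Pool.Agent.MP_16e32a_lc

theorem result : ∀ (V : Type) [Fintype V] [Nonempty V] (ε η : ℝ), 0 < ε → ε < 1 →
    η = ε / (27 * (1 + Real.log (Fintype.card V))) →
    (∃ A : Alg V (ℝ → ℝ), Fair A ∅ ∧ ∀ G : SimpleGraph V, Solves A G ε ∧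
      expectedQueries A G ≤ ENNReal.ofReal (10 ^ 6 / η ^ 20 * inst G η)) ∧
    (∀ ε' : ℝ, 0 ≤ ε' → ε' ≤ η / 4 → ∀ B : Alg V (ℝ → ℝ), (∀ G : SimpleGraph V, Solves B G ε') →
      ∀ G : SimpleGraph V, ENNReal.ofReal (η ^ 2 / 10 ^ 6 * inst G η) ≤ 1 + expectedQueries B G) := by
  intro V _ _ ε η e0 e1 hη
  have hl := Real.log_nonneg (show (1 : ℝ) ≤ Fintype.card V by exact_mod_cast Fintype.card_pos)
  refine ⟨inst_upper V e0 e1 hη, fun ε' p0 p1 B hB G =>
    inst_lower (by rw [hη]; positivity) ?_ p0 p1 hB G⟩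
  rw [hη, div_le_div_iff₀ (by positivity) (by norm_num)]
  linarith

end Pool.Agent.Results.MP_16e32a_lc.InstanceOptimal
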