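import Mathlib
import Pool.Agent.MP_16e32a_lc.Lower

/-! The query complexity of estimating the degree distribution is, up to factors polynomial in
`log n` and `1/ε`, equal to `n / max (h, μ/h) + m/μ`. -/

open scoped Classical
open Finset

namespace Pool.Agent.Results.MP_16e32a_lc.Tight

open Pool.Agent.MP_16e32a_lc

lemma regular (s : ℕ) (hs : 1 ≤ s) :
    ∃ G : SimpleGraph (Fin (2 * s ^ 4)), HasParams G (s ^ 5) s (2 * s ^ 4) := by
  let c : Unit → ℕ := fun _ => s ^ 3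
  let a : Unit → ℕ := fun _ => s
  obtain ⟨f⟩ : Nonempty (BipV c a a ⊕ Empty ↪ Fin (2 * s ^ 4)) :=
    Function.Embedding.nonempty_of_card_le (le_of_eq (by simp [c, a]; ring))
  have e0 : ∀ φ, dsum (⊥ : SimpleGraph Empty) φ = 0 := fun φ => by simp [dsum]
  have e1 : ∀ φ, dsum (bip c a a) φ = 2 * s ^ 4 * φ s := fun φ => by
    rw [dsum_bip]
    simp only [c, a, univ_unique, sum_singleton]
    ring
  have e2 : ∀ d, 1 ≤ d → prof (build f (bip c a a) ⊥) d = 2 * s ^ 4 * ge d s := fun d hd => by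
    rw [prof_build _ _ _ hd, e0, e1, add_zero]
  have e3 : s ≤ s ^ 4 := Nat.le_self_pow (by norm_num) s
  refine ⟨build f (bip c a a) ⊥, ?_, hIndex_eq _ ?_ ?_, mu_eq _ (d := 1) le_rfl ?_ ?_ ?_⟩
  · have := edges_build f (bip c a a) ⊥
    rw [e0, e1, id, add_zero, mul_assoc, ← pow_succ] at this
    exact Nat.eq_of_mul_eq_mul_left two_pos this
  · rw [e2 _ hs, ge_pos le_rfl]
    omega
  · rw [e2 _ (by omega), ge_neg (by omega)]
    omega
  · rw [e2 _ le_rfl, ge_pos hs]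
    omega
  · rw [e2 _ le_rfl, ge_pos hs]
    omega
  · intro d hd hp
    rw [e2 _ hd] at hp ⊢
    rcases le_or_gt d s with h | h
    · rw [ge_pos h, mul_one]
      exact Nat.le_mul_of_pos_left _ hd
    · rw [ge_neg h] at hp
      omega

theorem result :
    (∃ K : ℝ, ∀ (V : Type) [Fintype V] [Nonempty V] (m h μ : ℕ), 0 < m → ∀ ε : ℝ, 0 < ε → ε < 1 →
      ∃ A : Alg V (ℝ → ℝ), ∀ G : SimpleGraph V, HasParams G m h μ →
        Solves A G ε ∧ ∀ x ∈ (run G A).support, (x.2 : ℝ) ≤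
          K * (1 + Real.log (Fintype.card V)) / ε ^ 3 * bound (Fintype.card V) m h μ) ∧
    (∃ (C : ℕ) (c : ℝ), 0 < C ∧ 0 < c ∧ ∀ (W : Type) [Fintype W] (G₀ : SimpleGraph W) (m h μ : ℕ),
      0 < m → HasParams G₀ m h μ →
      ∀ (V : Type) [Fintype V] [Nonempty V], Fintype.card V = C * Fintype.card W →
        ∃ m' h' μ' : ℕ, m ≤ m' ∧ m' ≤ C * m ∧ h ≤ h' ∧ h' ≤ C * h ∧ μ ≤ μ' ∧ μ' ≤ C * μ ∧
          ∀ ε : ℝ, 0 < ε → ε ≤ 1 / 8 → ∀ A : Alg V (ℝ → ℝ),
            (∀ G : SimpleGraph V, HasParams G m' h' μ' → Solves A G ε) →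
            ∃ G : SimpleGraph V, HasParams G m' h' μ' ∧
              ENNReal.ofReal (c * bound (Fintype.card V) m' h' μ') ≤ expectedQueries A G) ∧
    (∀ s : ℕ, 1 ≤ s → ∃ (n m h μ : ℕ) (G : SimpleGraph (Fin n)), n = 2 * s ^ 4 ∧ 0 < m ∧
      HasParams G m h μ ∧ bound n m h μ ≤ 2 * s ∧ (s : ℝ) ^ 3 ≤ (n : ℝ) / h + (m : ℝ) / μ) := by
  refine ⟨⟨1250, fun V _ _ m h μ hm ε h0 h1 => upper V m h μ hm ε h0 h1⟩,
    ⟨1000, 1 / 10 ^ 8, by norm_num, by norm_num, fun W _ G₀ m h μ hm hp V _ _ hV => ?_⟩,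
    fun s hs => ?_⟩
  · obtain ⟨m', h', μ', a1, a2, a3, a4, a5, a6, a7⟩ := lower hp hm hV
    exact ⟨m', h', μ', a1, a2, a3, a4, a5, a6, fun ε _ hε => a7 ε hε⟩
  · obtain ⟨G, hG⟩ := regular s hs
    have r : (1 : ℝ) ≤ s := by exact_mod_cast hs
    have r0 : (0 : ℝ) < s := by linarith
    have e1 : (2 * (s : ℝ) ^ 4) / s = 2 * s ^ 3 := by field_simp
    have e2 : (s : ℝ) ^ 5 / (2 * s ^ 4) = s / 2 := by field_simp
    refine ⟨_, _, _, _, G, rfl, by positivity, hG, ?_, ?_⟩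
    · rw [bound]
      push_cast
      rw [e1, e2]
      have : (2 * (s : ℝ) ^ 4) / max (s : ℝ) (2 * s ^ 3) ≤ s := by
        refine (div_le_div_of_nonneg_left (by positivity) (by positivity)
          (le_max_right _ _)).trans (le_of_eq ?_)
        field_simp
      linarith
    · push_cast
      rw [e1, e2]
      have : (0 : ℝ) < s ^ 3 := by positivity
      linarith

end Pool.Agent.Results.MP_16e32a_lc.Tight
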